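import Pool.Agent.V8H82.MZ.RealFin

/-!
# Superadditivity for the spaces of multiple Clausen and Glaisher values

`GG k` is `𝒢_k`, `CL k` is `𝒞_k`, both as `ℚ`-subspaces of `ℝ` (`Pool/Agent/V8H82/MZ/RealSp.lean`);
`CC k` is the `ℚ`-subspace of `ℂ` spanned by the numbers `Li_{k_1, ..., k_n}(e ^ (π i / 3))` of weight `k`
(`Pool/Agent/V8H82/MZ/Defs.lean`); `dimR V` is the dimension, over the field of all algebraic numbers, of
the space of the combinations of the elements of `V` with algebraic coefficients; it is at most the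
dimension of `V` over `ℚ`.
-/

set_option autoImplicit false

namespace Pool.Agent.Results.MP_80812c_nt.SuperadditiveDimensions

open Module Pool.Agent.V8H82.MZ

theorem result :
    -- `dimR` is a lower bound of the dimension over `ℚ`
    (∀ k : ℕ, 1 ≤ k → FiniteDimensional ℚ (GG k) ∧ FiniteDimensional ℚ (CL k) ∧
      dimR (GG k) ≤ finrank ℚ (GG k) ∧ dimR (CL k) ≤ finrank ℚ (CL k)) ∧
    -- the complex space is closed under conjugation, its dimension is the sum of the dimensions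
    (∀ k : ℕ, 1 ≤ k → (∀ x ∈ CC k, starRingEnd ℂ x ∈ CC k) ∧
      finrank ℚ (CC k) = finrank ℚ (CL k) + finrank ℚ (GG k)) ∧
    -- products
    (∀ k l : ℕ, 1 ≤ k → 1 ≤ l →
      (∀ x ∈ GG k, ∀ y ∈ GG l, x * y ∈ GG (k + l)) ∧
      (∀ x ∈ GG k, ∀ y ∈ CL l, x * y ∈ CL (k + l)) ∧
      (∀ x ∈ CL k, ∀ y ∈ CL l, x * y ∈ GG (k + l))) ∧
    -- superadditivity
    (∀ k l : ℕ, 1 ≤ k → 1 ≤ l → dimR (GG k) + dimR (GG l) ≤ dimR (GG (k + l)) + 1) ∧
    (∀ k l : ℕ, 1 ≤ k → 2 ≤ l → dimR (GG k) + dimR (CL l) ≤ dimR (CL (k + l)) + 1) ∧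
    (∀ k l : ℕ, 2 ≤ k → 2 ≤ l → dimR (CL k) + dimR (CL l) ≤ dimR (GG (k + l)) + 1) ∧
    -- either all values of weight `u` are algebraic multiples of `π ^ u` or the dimensions grow
    (∀ u : ℕ, 1 ≤ u →
      ((∀ x ∈ GG u, ∃ a : ℝ, IsAlgebraic ℚ a ∧ x = a * Real.pi ^ u) ∧
        ∀ x ∈ CL u, ∃ a : ℝ, IsAlgebraic ℚ a ∧ x = a * Real.pi ^ u) ∨
      ((∀ k, 1 ≤ k → k / (2 * u) + 1 ≤ dimR (GG k)) ∧
        ∀ k, 2 ≤ k → (k - 2) / (2 * u) + 1 ≤ dimR (CL k))) ∧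
    -- if the dimensions of one of the two sequences of spaces are bounded
    (∀ M : ℕ, ((∀ k, 1 ≤ k → finrank ℚ (GG k) ≤ M) ∨ ∀ k, 1 ≤ k → finrank ℚ (CL k) ≤ M) →
      ∃ (K : IntermediateField ℚ ℝ) (c : ℝ), FiniteDimensional ℚ K ∧ finrank ℚ K ≤ M ∧
        (∀ y, IsLi (clausen [2]) y → c = y.im / Real.pi ^ 2) ∧ c ≠ 0 ∧ c ^ 2 ∈ K ∧
        ∀ k, 1 ≤ k → (∀ x ∈ GG k, ∃ a ∈ K, x = a * Real.pi ^ k) ∧
          ∀ x ∈ CL k, ∃ a ∈ K, x = a * c * Real.pi ^ k) ∧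
    -- weights up to two
    ((finrank ℚ (CL 0) = 0 ∧ finrank ℚ (GG 0) = 1) ∧ (finrank ℚ (CL 1) = 0 ∧ finrank ℚ (GG 1) = 1) ∧
      (finrank ℚ (CL 2) = 1 ∧ finrank ℚ (GG 2) = 1)) := by
  refine ⟨fun k hk => ?_, fun k hk => ⟨fun x hx => CC_conj hx, finrank_sum hk⟩,
    fun k l hk hl => ⟨fun x hx y hy => GG_mul_GG hk hl hx hy, fun x hx y hy => GG_mul_CL hk hl hx hy,
      fun x hx y hy => CL_mul_CL hk hl hx hy⟩,
    fun k l hk hl => super_GG hk hl, fun k l hk hl => super_GC hk hl,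
    fun k l hk hl => super_CC' hk hl, fun u hu => dichR hu, fun M h => boundedR h,
    small_zero, small_one, small_two⟩
  have i1 := GG_finite hk
  have i2 := CL_finite hk
  exact ⟨i1, i2, dimR_le _, dimR_le _⟩

end Pool.Agent.Results.MP_80812c_nt.SuperadditiveDimensions
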